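import Mathlib
import Pool.Agent.TH481.AboveT4

set_option autoImplicit false

/-!
Sizes of flat maximal antichains above `T(n,l)`: the condition of Griggs, Kalinowski, Leck, Roberts
and Schmitt is sufficient for every `l ≥ 2`.
-/

namespace Pool.Agent.Results.MP_0ea01d_co.AboveT

/-- `𝒜` is a maximal antichain in the Boolean lattice `B_n` of all subsets of an `n`-set: no member
is a proper subset of another one, and no further set can be added. -/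
def IsMaxAntichain (n : ℕ) (𝒜 : Finset (Finset (Fin n))) : Prop :=
  (∀ A ∈ 𝒜, ∀ B ∈ 𝒜, ¬ A ⊂ B) ∧
  ∀ S : Finset (Fin n), S ∉ 𝒜 → ∃ A ∈ 𝒜, A ⊂ S ∨ S ⊂ A

/-- `S(n,l)`: the set of sizes of the maximal antichains of `B_n` all of whose members have size
`l` or `l + 1`. -/
def S (n l : ℕ) : Set ℕ :=
  {m | ∃ 𝒜 : Finset (Finset (Fin n)), (∀ A ∈ 𝒜, A.card = l ∨ A.card = l + 1) ∧
    IsMaxAntichain n 𝒜 ∧ 𝒜.card = m}

/-- `T(n,l) = C(n,l+1) - (n-l-1) ⌈(n-l)/2⌉`. -/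
def T (n l : ℕ) : ℤ :=
  (n.choose (l + 1) : ℤ) - ((n : ℤ) - l - 1) * ⌈((n : ℚ) - l) / 2⌉

lemma isFlatMax_iff {n l : ℕ} (𝒜 : Finset (Finset (Fin n))) :
    Pool.Agent.TH481.IsFlatMax l 𝒜 ↔
      ((∀ A ∈ 𝒜, A.card = l ∨ A.card = l + 1) ∧ IsMaxAntichain n 𝒜) := by
  constructor
  · rintro ⟨h1, h2, h3⟩
    refine ⟨h1, ?_, ?_⟩
    · intro A hA B hB hAB
      have := h2 A hA B hB hAB.1
      rw [this] at hAB
      exact absurd hAB (ssubset_irrefl _)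
    · intro T hT
      obtain ⟨A, hA, hAT⟩ := h3 T
      refine ⟨A, hA, ?_⟩
      have hne : A ≠ T := fun h => hT (h ▸ hA)
      rcases hAT with h | h
      · left; exact Finset.ssubset_iff_subset_ne.2 ⟨h, hne⟩
      · right; exact Finset.ssubset_iff_subset_ne.2 ⟨h, hne.symm⟩
  · rintro ⟨h1, h2, h3⟩
    refine ⟨h1, ?_, ?_⟩
    · intro A hA B hB hAB
      by_contra hne
      exact h2 A hA B hB (Finset.ssubset_iff_subset_ne.2 ⟨hAB, hne⟩)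
    · intro T
      by_cases hT : T ∈ 𝒜
      · exact ⟨T, hT, Or.inl (Finset.Subset.refl _)⟩
      · obtain ⟨A, hA, h | h⟩ := h3 T hT
        · exact ⟨A, hA, Or.inl h.1⟩
        · exact ⟨A, hA, Or.inr h.1⟩

lemma ceil_half (N : ℕ) : ⌈(N : ℚ) / 2⌉ = (((N + 1) / 2 : ℕ) : ℤ) := by
  have h1 : 2 * ((N + 1) / 2) ≤ N + 1 := Nat.mul_div_le _ _
  have h2 : N ≤ 2 * ((N + 1) / 2) := by omega
  generalize (N + 1) / 2 = q at h1 h2
  have h1' : (2 : ℚ) * q ≤ N + 1 := by exact_mod_cast h1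
  have h2' : (N : ℚ) ≤ 2 * q := by exact_mod_cast h2
  rw [Int.ceil_eq_iff, Int.cast_natCast]
  constructor <;> linarith

/-- Let `2 ≤ l ≤ ⌈n/2⌉` and `T(n,l) < m < C(n,l+1)`. If
`m = C(n,l+1) - t(n-l-1) + C(a,2) + C(b,2) + c` with `1 ≤ t ≤ n-l+1`, `a ≥ b ≥ c ≥ 0` and
`1 ≤ a+b ≤ t`, then `m ∈ S(n,l)`. -/
theorem result (n l : ℕ) (hl : 2 ≤ l) (hn : 2 * l ≤ n + 1)
    (m : ℕ) (hm₁ : T n l < m) (hm₂ : m < n.choose (l + 1))
    (t a b c : ℕ) (_ht₁ : 1 ≤ t) (ht₂ : t ≤ n - l + 1) (hcb : c ≤ b) (hba : b ≤ a)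
    (hab₁ : 1 ≤ a + b) (hab₂ : a + b ≤ t)
    (h : (m : ℤ) = (n.choose (l + 1) : ℤ) - t * ((n : ℤ) - l - 1) + a.choose 2 + b.choose 2 + c) :
    m ∈ S n l := by
  obtain ⟨N, rfl⟩ : ∃ N, n = l + N := ⟨n - l, by omega⟩
  obtain ⟨M, rfl⟩ : ∃ M, N = M + 1 := ⟨N - 1, by omega⟩
  set C := (l + (M + 1)).choose (l + 1) with hC
  have hT : T (l + (M + 1)) l = (C : ℤ) - M * (((M + 1 + 1) / 2 : ℕ) : ℤ) := by
    unfold T
    rw [← ceil_half (M + 1), hC]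
    have h1 : (((l + (M + 1) : ℕ) : ℚ) - l) / 2 = ((M + 1 : ℕ) : ℚ) / 2 := by
      push_cast; ring
    have h2 : (((l + (M + 1) : ℕ) : ℤ) - l - 1) = M := by push_cast; ring
    rw [h1, h2]
  have h' : (m : ℤ) = (C : ℤ) - t * M + a.choose 2 + b.choose 2 + c := by
    rw [h]; push_cast; ring
  have hU : t * (M + 1 - 1) < (a.choose 2 + b.choose 2 + c) +
      (M + 1 - 1) * ((M + 1 + 1) / 2) := by
    rw [Nat.add_sub_cancel]
    rw [hT, h'] at hm₁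
    zify
    have h3 : (((M + 1 + 1) / 2 : ℕ) : ℤ) = ((M : ℤ) + 1 + 1) / 2 := by push_cast; rfl
    rw [h3] at hm₁
    linarith
  have hL : a.choose 2 + b.choose 2 + c < t * (M + 1 - 1) := by
    rw [Nat.add_sub_cancel]
    have h3 : (m : ℤ) < C := by exact_mod_cast hm₂
    rw [h'] at h3
    zify
    linarith
  obtain ⟨R, hR1, hR2, hR3⟩ := Pool.Agent.TH481.AboveT.exists_graph (N := M + 1) hcb hba hab₁
    hab₂ (by omega) hU hL
  obtain ⟨𝒜, hA1, hA2⟩ := Pool.Agent.TH481.AboveT.lift (β := Fin (M + 1 + 2)) (γ := Fin (l - 2))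
    (l := l) (by rw [Fintype.card_fin]; omega) (by rw [Fintype.card_fin]; omega) hR1 hR2
  have hcard : Fintype.card (Fin (M + 1 + 2) ⊕ Fin (l - 2)) = l + (M + 1) := by
    rw [Fintype.card_sum, Fintype.card_fin, Fintype.card_fin]; omega
  obtain ⟨h4, h5⟩ := hA1.map (Fintype.equivFinOfCardEq hcard)
  obtain ⟨h6, h7⟩ := (isFlatMax_iff _).1 h4
  refine ⟨_, h6, h7, ?_⟩
  rw [h5]
  rw [hcard, ← hC] at hA2
  have h8 : (𝒜.card : ℤ) = m := by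
    rw [h']
    have h9 : ((t * (M + 1) : ℕ) : ℤ) = t * M + t := by push_cast; ring
    zify at hA2 hR3
    linarith
  exact_mod_cast h8

end Pool.Agent.Results.MP_0ea01d_co.AboveT
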