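import Mathlib
import Pool.Agent.TH481.NoGap

set_option autoImplicit false

/-!
Sizes of flat maximal antichains on the levels `l` and `l + 1`: the set `S(n,l)` has no gaps between
`min S(n,l) + c n` and `C(n,l)`, where `c` depends only on `l`.
-/

namespace Pool.Agent.Results.MP_0ea01d_co.NoGaps

/-- `𝒜` is a maximal antichain in the Boolean lattice `B_n` of all subsets of an `n`-set: no member
is a proper subset of another one, and no further set can be added. -/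
def IsMaxAntichain (n : ℕ) (𝒜 : Finset (Finset (Fin n))) : Prop :=
  (∀ A ∈ 𝒜, ∀ B ∈ 𝒜, ¬ A ⊂ B) ∧
  ∀ S : Finset (Fin n), S ∉ 𝒜 → ∃ A ∈ 𝒜, A ⊂ S ∨ S ⊂ A

/-- `S(n,l)`: the set of sizes of the maximal antichains of `B_n` all of whose members have size
`l` or `l + 1`. -/
def S (n l : ℕ) : Set ℕ :=
  {m | ∃ 𝒜 : Finset (Finset (Fin n)), (∀ A ∈ 𝒜, A.card = l ∨ A.card = l + 1) ∧
    IsMaxAntichain n 𝒜 ∧ 𝒜.card = m}

lemma isFlatMax_iff {n l : ℕ} (𝒜 : Finset (Finset (Fin n))) :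
    Pool.Agent.TH481.IsFlatMax l 𝒜 ↔
      ((∀ A ∈ 𝒜, A.card = l ∨ A.card = l + 1) ∧ IsMaxAntichain n 𝒜) := by
  constructor
  · rintro ⟨h1, h2, h3⟩
    refine ⟨h1, ?_, ?_⟩
    · intro A hA B hB hAB
      have := h2 A hA B hB hAB.1
      rw [this] at hAB
      exact absurd hAB (ssubset_irrefl _)
    · intro T hT
      obtain ⟨A, hA, hAT⟩ := h3 T
      refine ⟨A, hA, ?_⟩
      have hne : A ≠ T := fun h => hT (h ▸ hA)
      rcases hAT with h | h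
      · left; exact Finset.ssubset_iff_subset_ne.2 ⟨h, hne⟩
      · right; exact Finset.ssubset_iff_subset_ne.2 ⟨h, hne.symm⟩
  · rintro ⟨h1, h2, h3⟩
    refine ⟨h1, ?_, ?_⟩
    · intro A hA B hB hAB
      by_contra hne
      exact h2 A hA B hB (Finset.ssubset_iff_subset_ne.2 ⟨hAB, hne⟩)
    · intro T
      by_cases hT : T ∈ 𝒜
      · exact ⟨T, hT, Or.inl (Finset.Subset.refl _)⟩
      · obtain ⟨A, hA, h | h⟩ := h3 T hT
        · exact ⟨A, hA, Or.inl h.1⟩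
        · exact ⟨A, hA, Or.inr h.1⟩

/-- For every `l ≥ 2` there is a constant `c` such that for all `n`, every integer `m` with
`m₀ + c n ≤ m ≤ C(n,l)` for some `m₀ ∈ S(n,l)` (for instance `m₀ = min S(n,l)`) lies in
`S(n,l)`. -/
theorem result (l : ℕ) (hl : 2 ≤ l) : ∃ c : ℕ, ∀ n : ℕ, ∀ m₀ ∈ S n l, ∀ m : ℕ,
    m₀ + c * n ≤ m → m ≤ n.choose l → m ∈ S n l := by
  obtain ⟨c, hc⟩ := Pool.Agent.TH481.NoGap.noGap hl
  refine ⟨c, ?_⟩
  rintro n m₀ ⟨𝒜, h1, h2, h3⟩ m hm1 hm2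
  obtain ⟨ℬ, hB1, hB2⟩ := hc (Fin n) 𝒜 ((isFlatMax_iff 𝒜).2 ⟨h1, h2⟩) m
    (by rw [h3, Fintype.card_fin]; exact hm1) (by rw [Fintype.card_fin]; exact hm2)
  obtain ⟨h4, h5⟩ := (isFlatMax_iff ℬ).1 hB1
  exact ⟨ℬ, h4, h5, hB2⟩

end Pool.Agent.Results.MP_0ea01d_co.NoGaps
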